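import Pool.Agent.H56.G3.TI

/-!
# Theorem (G), MP_c59857_nt, section 3b, row BS: the sheets of overlapping windows match
-/

set_option autoImplicit false

namespace Pool.Agent.H1.G3

open Finset Pool.Agent.H6.N4D Pool.Agent.H93.EB Pool.Agent.H93.GS Pool.Agent.H56.G3

private theorem bs_phase (hBA : T_BA) {κp e : ℝ} (hκ : 0 < κp) (c c' : ℂ) (a a' : ℝ)
    (n n3 : ℕ) (hc : κp ≤ ‖c‖) (h : ‖c * ee (a * n3) - c' * ee (a' * n3)‖ ≤ e) :
    nd (ph (c' * ee (a' * n3)) - (ph (c * ee (a * n)) + a * ((n3 : ℝ) - n))) ≤ e / κp := by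
  obtain ⟨-, h2, h3⟩ := hBA
  have e0 : ‖c * ee (a * n3)‖ = ‖c‖ := by rw [norm_mul, norm_ee, mul_one]
  have e1 := h2 κp e _ _ hκ (by rw [e0]; exact hc) h
  have e2 : c * ee (a * n3) = (c * ee (a * n)) * ee (a * ((n3 : ℝ) - n)) := by
    rw [mul_assoc, ← ee_add]
    congr 2
    ring
  have hne : c * ee (a * n) ≠ 0 := by
    intro h0
    have h4 : ‖c * ee (a * n)‖ = 0 := by rw [h0, norm_zero]
    rw [norm_mul, norm_ee, mul_one] at h4
    linarith
  have e3 := h3 (c * ee (a * n)) (a * ((n3 : ℝ) - n)) hne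
  rw [← e2] at e3
  have e4 := nd_tri (ph (c' * ee (a' * n3))) (ph (c * ee (a * n3)))
    (ph (c * ee (a * n)) + a * ((n3 : ℝ) - n))
  rw [nd_sub_comm (ph (c' * ee (a' * n3))) (ph (c * ee (a * n3)))] at e4
  linarith

private theorem bs_d2 (q N n : ℕ) (g h : Ex) : d2 q N n g h = d2 q N n h g := by
  unfold d2
  have e1 : (fun m => ‖g.f m - h.f m‖ ^ 2) = fun m => ‖h.f m - g.f m‖ ^ 2 := by
    funext m
    rw [norm_sub_rev]
  rw [e1]

private theorem bs_norm {κp e : ℝ} (c c' : ℂ) (x x' : ℝ) (hc : κp ≤ ‖c‖) (he : e ≤ κp / 2)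
    (h : ‖c * ee x - c' * ee x'‖ ≤ e) : κp / 2 ≤ ‖c'‖ := by
  have h1 : ‖c * ee x‖ = ‖c‖ := by rw [norm_mul, norm_ee, mul_one]
  have h2 : ‖c' * ee x'‖ = ‖c'‖ := by rw [norm_mul, norm_ee, mul_one]
  have h3 := norm_sub_norm_le (c * ee x) (c' * ee x')
  rw [h1, h2] at h3
  linarith

private theorem bs_nb {κp : ℝ} (hκp : 0 < κp) {g : Ex} (hNb : Nb κp g) {i : ℕ} (hi : i < g.k)
    (h : κp / 2 ≤ ‖g.c i‖) : κp ≤ ‖g.c i‖ := by
  by_contra hcon
  rw [not_le] at hcon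
  exact hNb i hi ⟨h, by linarith⟩

/-- BS. The sheets of overlapping windows match. -/
theorem pf_BS (hSH : T_SH) (hINV : T_INV) (hBA : T_BA) (hSN : T_SN) (hRB : T_RB) : T_BS := by
  intro th κp e₀ K hth hth1 hκp he₀ hK
  obtain ⟨e, hedef⟩ : ∃ e : ℝ, e = min (e₀ / 4) (min (e₀ * κp) (κp / 2)) := ⟨_, rfl⟩
  have he0 : 0 < e := by
    rw [hedef]
    exact lt_min (by positivity) (lt_min (by positivity) (by positivity))
  have he1 : e ≤ e₀ / 4 := by rw [hedef]; exact min_le_left _ _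
  have he2 : e ≤ e₀ * κp := by
    rw [hedef]
    exact (min_le_right _ _).trans (min_le_left _ _)
  have he3 : e ≤ κp / 2 := by
    rw [hedef]
    exact (min_le_right _ _).trans (min_le_right _ _)
  obtain ⟨Lam, δ, N₀, hLam, hδ, hI⟩ := hINV (2 / th) κp e (by positivity) hκp he0
  obtain ⟨κ, hκdef⟩ : ∃ κ : ℝ, κ = min 1 (δ / 3000) := ⟨_, rfl⟩
  have hκ0 : 0 < κ := by
    rw [hκdef]
    exact lt_min one_pos (by positivity)
  have hκ1 : κ ≤ 1 := by rw [hκdef]; exact min_le_left _ _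
  have hκ2 : 3000 * κ ≤ δ := by
    have : κ ≤ δ / 3000 := by rw [hκdef]; exact min_le_right _ _
    linarith
  refine ⟨κ, 4 * Lam, hκ0, by linarith, fun r => ?_⟩
  obtain ⟨X₁, h1⟩ := hSH th κ K r hth hth1 hκ0 hκ1 hK
  obtain ⟨X₂, h2⟩ := hSN K r (2 * N₀ + 4) hK
  refine ⟨max X₁ X₂, ?_⟩
  intro S k₁ lam t w g g' hS hX hlam ht htw hw hG hsg hsg' hdg hdg' hNb hNb'
  obtain ⟨a1, a2, a3, a4⟩ := h1 S k₁ lam t w g g' hS (le_trans (le_max_left _ _) hX) hlam ht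
    htw hw hG hdg hdg'
  obtain ⟨-, -, -, hrho, -, hN, -, -⟩ := h2 S k₁ hS (le_trans (le_max_right _ _) hX)
  obtain ⟨b1, b2, b3, -⟩ := hN t ht
  obtain ⟨c1, c2, -, -⟩ := hN (t + w) htw
  have hr0 : 0 < S.rho := hS.ok.hr0
  obtain ⟨N3, hN3⟩ : ∃ N3 : ℕ, N3 = S.n t + Nt S t - S.n (t + w) := ⟨_, rfl⟩
  rw [← hN3] at a3 a4
  have hN0 : (0 : ℝ) ≤ N₀ := Nat.cast_nonneg _
  have hNt4 : (4 : ℝ) ≤ Nt S t := by linarith
  have hNt4' : (4 : ℝ) ≤ Nt S (t + w) := by linarith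
  have hNt1 : 1 ≤ Nt S t := by
    have : (1 : ℝ) ≤ Nt S t := by linarith
    exact_mod_cast this
  have hNt1' : 1 ≤ Nt S (t + w) := by
    have : (1 : ℝ) ≤ Nt S (t + w) := by linarith
    exact_mod_cast this
  have hN3pos : (0 : ℝ) < N3 := by linarith
  have hN3N : N₀ ≤ N3 := by
    have : (N₀ : ℝ) ≤ N3 := by linarith
    exact_mod_cast this
  have hR : (Nt S (t + w) : ℝ) ≤ 2 * Nt S t := by
    have e1 : (S.n (t + w) : ℝ) ≤ S.n t + Nt S t := by exact_mod_cast a2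
    have e2 := mul_le_mul_of_nonneg_left e1 hr0.le
    have e3 : S.rho * (Nt S t : ℝ) ≤ 1 / 100 * Nt S t :=
      mul_le_mul_of_nonneg_right hrho (Nat.cast_nonneg _)
    nlinarith
  have hSp : Sp g (Lam / N3) := by
    intro i hi j hj hij
    refine le_trans ?_ (hsg i hi j hj hij)
    rw [div_le_div_iff₀ hN3pos (by linarith)]
    nlinarith
  have hSp' : Sp g' (Lam / N3) := by
    intro i hi j hj hij
    refine le_trans ?_ (hsg' i hi j hj hij)
    rw [div_le_div_iff₀ hN3pos (by linarith)]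
    nlinarith
  have hnm : g.nm ≤ 2 / th := by
    obtain ⟨-, d1, -, -, -, d2, -⟩ := hRB th lam 1 (Nt S t) (S.n t) hth hlam le_rfl hNt1
    refine d2 g hNt1 ?_
    unfold df at hdg
    linarith
  have hnm' : g'.nm ≤ 2 / th := by
    obtain ⟨-, d1, -, -, -, d2, -⟩ :=
      hRB th lam 1 (Nt S (t + w)) (S.n (t + w)) hth hlam le_rfl hNt1'
    refine d2 g' hNt1' ?_
    unfold df at hdg'
    linarith
  have hd : d2 1 N3 (S.n (t + w)) g g' ≤ δ := a4.trans hκ2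
  have hd' : d2 1 N3 (S.n (t + w)) g' g ≤ δ := by rw [bs_d2]; exact hd
  have hfr : e / N3 ≤ e₀ / (S.rho * S.x t) := by
    have hx : 0 < S.x t := Par.x_pos t
    have e1 : S.x t < S.n t + 1 := Nat.lt_floor_add_one _
    have e2 : S.rho * S.x t ≤ 4 * N3 := by
      have e3 := mul_le_mul_of_nonneg_left e1.le hr0.le
      nlinarith
    rw [div_le_div_iff₀ hN3pos (by positivity)]
    calc e * (S.rho * S.x t) ≤ e₀ / 4 * (4 * N3) :=
          mul_le_mul he1 e2 (by positivity) (by positivity)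
      _ = e₀ * N3 := by ring
  have heκ : e / κp ≤ e₀ := by
    rw [div_le_iff₀ hκp]
    exact he2
  constructor
  · intro j hj
    unfold Lg at hj
    rw [mem_filter, mem_range] at hj
    obtain ⟨i, hi, f1, f2⟩ := hI N3 (S.n (t + w)) g g' hN3N hnm hnm' hSp hSp' hd j hj.1 hj.2
    have hci := bs_nb hκp hNb' hi (bs_norm _ _ _ _ hj.2 he3 f2)
    refine ⟨i, ?_, ?_, ?_⟩
    · unfold Lg
      rw [mem_filter, mem_range]
      exact ⟨hi, hci⟩
    · rw [nd_sub_comm]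
      exact f1.trans hfr
    · exact (bs_phase hBA hκp _ _ _ _ (S.n t) (S.n (t + w)) hj.2 f2).trans heκ
  · intro i hi
    unfold Lg at hi
    rw [mem_filter, mem_range] at hi
    obtain ⟨j, hj, f1, f2⟩ := hI N3 (S.n (t + w)) g' g hN3N hnm' hnm hSp' hSp hd' i hi.1 hi.2
    have hcj := bs_nb hκp hNb hj (bs_norm _ _ _ _ hi.2 he3 f2)
    refine ⟨j, ?_, ?_, ?_⟩
    · unfold Lg
      rw [mem_filter, mem_range]
      exact ⟨hj, hcj⟩
    · exact f1.trans hfr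
    · rw [norm_sub_rev] at f2
      exact (bs_phase hBA hκp _ _ _ _ (S.n t) (S.n (t + w)) hcj f2).trans heκ

end Pool.Agent.H1.G3
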