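import Pool.Agent.H56.G3.TR

/-!
# Theorem (G), MP_c59857_nt, section 3b, row RN: the energy does not increase with the length
-/

set_option autoImplicit false

namespace Pool.Agent.H1.G3

open Finset Pool.Agent.H6.N4D Pool.Agent.H93.EB Pool.Agent.H93.GS Pool.Agent.H56.G3

theorem pf_RN (hRB : T_RB) (hRS : T_RS) : T_RN := by
  intro th lam M N n hth hth1 hlam hM hN
  have hNR : (0 : ℝ) < N := by exact_mod_cast (by omega : 0 < N)
  have hMR : (0 : ℝ) ≤ M := Nat.cast_nonneg M
  refine le_of_forall_pos_le_add fun ε hε => ?_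
  obtain ⟨-, -, -, -, h5, h6, -⟩ := hRB th lam 1 N n hth hlam le_rfl hN
  obtain ⟨g, hg1, hg2⟩ := h5 (min ε 1) (lt_min hε one_pos)
  have hJ : -1 ≤ J th lam 1 N n g := by
    have := min_le_right ε 1
    linarith
  have hnm : g.nm ≤ 2 / th := h6 g hN hJ
  have hnm0 : 0 ≤ g.nm ∨ g.nm < 0 := le_or_gt 0 g.nm
  have h2 : (2 : ℝ) / th ≤ 2 / th ^ 2 := by
    apply div_le_div_of_nonneg_left (by norm_num) (by positivity)
    nlinarith
  have hq : 2 * g.nm + g.nm ^ 2 ≤ 8 / th ^ 2 := by
    rcases hnm0 with h0 | h0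
    · have e1 : g.nm ^ 2 ≤ (2 / th) ^ 2 := pow_le_pow_left₀ h0 hnm 2
      have e2 : (2 / th) ^ 2 = 4 / th ^ 2 := by rw [div_pow]; norm_num
      have e3 : (8 : ℝ) / th ^ 2 = 2 * (2 / th ^ 2) + 4 / th ^ 2 := by ring
      rw [e3]
      linarith
    · exfalso
      have : 0 ≤ g.nm := by
        unfold Ex.nm
        positivity
      linarith
  have hS := hRS th lam M N n g hth hlam hM hN
  have h3 : En th lam 1 N n ≤ J th lam 1 N n g + ε := by
    have e1 : df th lam 1 N n g ≤ ε := hg1.trans (min_le_left _ _)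
    unfold df at e1
    linarith
  have h4 : (N : ℝ) * J th lam 1 N n g ≤ N * (sl N n (En th lam 1 M) +
      16 / th ^ 2 * (M / N)) := by
    have e1 : (N : ℝ) * sl N n (En th lam 1 M) = ∑ j ∈ range N, En th lam 1 M (n + j) := by
      unfold sl
      field_simp
    have e2 : (N : ℝ) * (16 / th ^ 2 * (M / N)) = 2 * M * (8 / th ^ 2) := by
      field_simp
      ring
    rw [mul_add, e1, e2]
    have e3 : 2 * (M : ℝ) * (2 * g.nm + g.nm ^ 2) ≤ 2 * M * (8 / th ^ 2) :=
      mul_le_mul_of_nonneg_left hq (by positivity)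
    linarith
  have h7 := le_of_mul_le_mul_left h4 hNR
  linarith

end Pool.Agent.H1.G3
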